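import Pool.Agent.U26.SG.Stm4
import Pool.Agent.Y265.RW.T3

/-!
# Project SG, package NT: telescoping of the null forms
-/

set_option autoImplicit false
open MeasureTheory Filter Topology Complex
open scoped ContDiff

namespace Pool.Agent.U688.SG

open Pool.Agent.U26.SG
open Pool.Agent.W745.RW (TF)
open Pool.Agent.Y265.RW (Fam Pair Unit2 RR LL RR_lim int_mul)

theorem sg_mul (a b : ℤ) (h : Even (a + b)) : (-1 : ℂ) ^ a.natAbs * (-1) ^ b.natAbs = 1 := by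
  rw [← pow_add]
  apply Even.neg_one_pow
  rw [Nat.even_add, Int.natAbs_even, Int.natAbs_even]
  exact Int.even_add.1 h

theorem neg_idx {h : ℕ → ℝ} {U : ℕ → ℤ → ℂ → ℂ} (hU : Fam Set.univ h U) (n : ℕ) (a : ℤ) (z : ℂ) :
    U n a z * U n (-a) z = (-1) ^ a.natAbs * ((‖U n a z‖ ^ 2 : ℝ) : ℂ) := by
  have h1 := hU.cj n a z (Set.mem_univ z)
  have h2 : U n (-a) z = (-1) ^ a.natAbs * (starRingEnd ℂ) (U n a z) := by
    rw [h1, ← mul_assoc, sg_mul a a ⟨a, rfl⟩, one_mul]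
  rw [h2]
  have h3 : U n a z * (starRingEnd ℂ) (U n a z) = ((‖U n a z‖ ^ 2 : ℝ) : ℂ) := by
    rw [Complex.mul_conj']
    push_cast
    rfl
  calc U n a z * ((-1) ^ a.natAbs * (starRingEnd ℂ) (U n a z)) =
      (-1) ^ a.natAbs * (U n a z * (starRingEnd ℂ) (U n a z)) := by ring
    _ = _ := by rw [h3]

theorem sgn_p (i : ℤ) (p : ℤ) : (-1 : ℂ) ^ (2 * i + p).natAbs = (-1) ^ p.natAbs := by
  have h1 := sg_mul (2 * i + p) p ⟨i + p, by ring⟩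
  have h2 := sg_mul p p ⟨p, rfl⟩
  calc (-1 : ℂ) ^ (2 * i + p).natAbs =
      (-1 : ℂ) ^ (2 * i + p).natAbs * ((-1 : ℂ) ^ p.natAbs * (-1 : ℂ) ^ p.natAbs) := by
        rw [h2, mul_one]
    _ = ((-1 : ℂ) ^ (2 * i + p).natAbs * (-1 : ℂ) ^ p.natAbs) * (-1 : ℂ) ^ p.natAbs := by ring
    _ = _ := by rw [h1, one_mul]

theorem RR_val {h : ℕ → ℝ} {U : ℕ → ℤ → ℂ → ℂ} (hU : Fam Set.univ h U) (n : ℕ) (i p : ℤ) (z : ℂ) :
    RR U U (2 * i + p) (-2 * i - 2 - p) n z = (-1) ^ p.natAbs *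
      (((‖U n (2 * (i + 1) + p) z‖ ^ 2 : ℝ) : ℂ) - ((‖U n (2 * i + p) z‖ ^ 2 : ℝ) : ℂ)) := by
  unfold RR
  have e1 : 2 * i + p + 2 = 2 * (i + 1) + p := by ring
  have e2 : -2 * i - 2 - p = -(2 * (i + 1) + p) := by ring
  have e3 : -2 * i - 2 - p + 2 = -(2 * i + p) := by ring
  rw [e3, e1, e2, neg_idx hU, neg_idx hU, sgn_p, sgn_p]
  ring

theorem D_val {h : ℕ → ℝ} {U : ℕ → ℤ → ℂ → ℂ} (hU : Fam Set.univ h U) (n : ℕ) (J : ℕ) (p : ℤ)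
    (z : ℂ) : ((‖U n (2 * (J : ℤ) + p) z‖ ^ 2 - ‖U n p z‖ ^ 2 : ℝ) : ℂ) = (-1) ^ p.natAbs *
      ∑ i ∈ Finset.range J, RR U U (2 * (i : ℤ) + p) (-2 * (i : ℤ) - 2 - p) n z := by
  rw [Finset.mul_sum]
  have h1 : ∀ i ∈ Finset.range J,
      (-1 : ℂ) ^ p.natAbs * RR U U (2 * (i : ℤ) + p) (-2 * (i : ℤ) - 2 - p) n z =
      (fun j : ℕ => ((‖U n (2 * (j : ℤ) + p) z‖ ^ 2 : ℝ) : ℂ)) (i + 1) -
      (fun j : ℕ => ((‖U n (2 * (j : ℤ) + p) z‖ ^ 2 : ℝ) : ℂ)) i := by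
    intro i _
    rw [RR_val hU, ← mul_assoc, sg_mul p p ⟨p, rfl⟩, one_mul]
    simp only
    push_cast
    rfl
  rw [Finset.sum_congr rfl h1,
    Finset.sum_range_sub (fun j : ℕ => ((‖U n (2 * (j : ℤ) + p) z‖ ^ 2 : ℝ) : ℂ)) J]
  simp only [Nat.cast_zero, mul_zero, zero_add]
  push_cast
  rfl

theorem kk {κ : ℤ → ℤ → ℂ} {Q : ℤ → ℂ} (hκ : Kq κ Q) (a b c d m : ℤ) (h1 : a + b = 2 * m)
    (h2 : c + d = -(2 * m)) (h3 : Even (a + c)) :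
    κ a b * κ c d = ((‖Q (2 * m)‖ ^ 2 : ℝ) : ℂ) := by
  have h4 : Q (2 * m) * (starRingEnd ℂ) (Q (2 * m)) = ((‖Q (2 * m)‖ ^ 2 : ℝ) : ℂ) := by
    rw [Complex.mul_conj']
    push_cast
    rfl
  rw [hκ.shape, hκ.shape, h1, h2, if_pos ⟨m, by ring⟩, if_pos ⟨-m, by ring⟩, hκ.conj, ← h4]
  calc (-1 : ℂ) ^ a.natAbs * Q (2 * m) * ((-1) ^ c.natAbs * (starRingEnd ℂ) (Q (2 * m))) =
      ((-1 : ℂ) ^ a.natAbs * (-1) ^ c.natAbs) * (Q (2 * m) * (starRingEnd ℂ) (Q (2 * m))) := by ring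
    _ = _ := by rw [sg_mul a c h3, one_mul]

/-- `|Q (2m)|²` -/
noncomputable def P (Q : ℤ → ℂ) (m : ℤ) : ℝ := ‖Q (2 * m)‖ ^ 2

/-- the function which is telescoped -/
noncomputable def Gt (Q : ℤ → ℂ) (p : ℤ) (i j : ℕ) : ℝ :=
  P Q ((i : ℤ) - j) + P Q ((i : ℤ) + j + p)

theorem LL_val {κ : ℤ → ℤ → ℂ} {Q : ℤ → ℂ} (hκ : Kq κ Q) (p : ℤ) (i j : ℕ) :
    LL κ κ κ (2 * (i : ℤ) + p) (-2 * (i : ℤ) - 2 - p) (2 * (j : ℤ) + p) (-2 * (j : ℤ) - 2 - p) =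
      ((Gt Q p (i + 1) (j + 1) - Gt Q p (i + 1) j - Gt Q p i (j + 1) + Gt Q p i j : ℝ) : ℂ) := by
  unfold LL
  rw [mul_assoc 2, mul_assoc 2]
  rw [kk hκ (2 * (i : ℤ) + p + 2) (2 * (j : ℤ) + p + 2) (-2 * (i : ℤ) - 2 - p)
      (-2 * (j : ℤ) - 2 - p) ((i : ℤ) + j + p + 2) (by ring) (by ring) ⟨0, by ring⟩,
    kk hκ (2 * (i : ℤ) + p + 1) (2 * (j : ℤ) + p + 1) (-2 * (i : ℤ) - 2 - p + 1)
      (-2 * (j : ℤ) - 2 - p + 1) ((i : ℤ) + j + p + 1) (by ring) (by ring) ⟨0, by ring⟩,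
    kk hκ (2 * (i : ℤ) + p) (2 * (j : ℤ) + p) (-2 * (i : ℤ) - 2 - p + 2)
      (-2 * (j : ℤ) - 2 - p + 2) ((i : ℤ) + j + p) (by ring) (by ring) ⟨0, by ring⟩,
    kk hκ (2 * (i : ℤ) + p + 2) (-2 * (j : ℤ) - 2 - p + 2) (2 * (j : ℤ) + p)
      (-2 * (i : ℤ) - 2 - p) ((i : ℤ) - j + 1) (by ring) (by ring) ⟨i + j + p + 1, by ring⟩,
    kk hκ (2 * (i : ℤ) + p + 1) (-2 * (j : ℤ) - 2 - p + 1) (2 * (j : ℤ) + p + 1)
      (-2 * (i : ℤ) - 2 - p + 1) ((i : ℤ) - j) (by ring) (by ring) ⟨i + j + p + 1, by ring⟩,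
    kk hκ (2 * (i : ℤ) + p) (-2 * (j : ℤ) - 2 - p) (2 * (j : ℤ) + p + 2)
      (-2 * (i : ℤ) - 2 - p + 2) ((i : ℤ) - j - 1) (by ring) (by ring) ⟨i + j + p + 1, by ring⟩]
  unfold Gt
  have e1 : ((i + 1 : ℕ) : ℤ) - ((j + 1 : ℕ) : ℤ) = (i : ℤ) - j := by push_cast; ring
  have e2 : ((i + 1 : ℕ) : ℤ) + ((j + 1 : ℕ) : ℤ) + p = (i : ℤ) + j + p + 2 := by push_cast; ring
  have e3 : ((i + 1 : ℕ) : ℤ) - (j : ℤ) = (i : ℤ) - j + 1 := by push_cast; ring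
  have e4 : ((i + 1 : ℕ) : ℤ) + (j : ℤ) + p = (i : ℤ) + j + p + 1 := by push_cast; ring
  have e5 : (i : ℤ) - ((j + 1 : ℕ) : ℤ) = (i : ℤ) - j - 1 := by push_cast; ring
  have e6 : (i : ℤ) + ((j + 1 : ℕ) : ℤ) + p = (i : ℤ) + j + p + 1 := by push_cast; ring
  rw [e1, e2, e3, e4, e5, e6]
  unfold P
  push_cast
  ring

theorem tele (G : ℕ → ℕ → ℝ) (J : ℕ) :
    ∑ i ∈ Finset.range J, ∑ j ∈ Finset.range J,
      (G (i + 1) (j + 1) - G (i + 1) j - G i (j + 1) + G i j) =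
      G J J - G J 0 - G 0 J + G 0 0 := by
  have h1 : ∀ i ∈ Finset.range J, ∑ j ∈ Finset.range J,
      (G (i + 1) (j + 1) - G (i + 1) j - G i (j + 1) + G i j) =
      (fun k => G k J - G k 0) (i + 1) - (fun k => G k J - G k 0) i := by
    intro i _
    have h2 : ∀ j ∈ Finset.range J,
        (G (i + 1) (j + 1) - G (i + 1) j - G i (j + 1) + G i j) =
        (fun k => G (i + 1) k - G i k) (j + 1) - (fun k => G (i + 1) k - G i k) j := by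
      intro j _
      simp only
      ring
    rw [Finset.sum_congr rfl h2, Finset.sum_range_sub (fun k => G (i + 1) k - G i k) J]
    simp only
    ring
  rw [Finset.sum_congr rfl h1, Finset.sum_range_sub (fun k => G k J - G k 0) J]
  ring

theorem P_bd {κ : ℤ → ℤ → ℂ} {Q : ℤ → ℂ} (hκ : Kq κ Q) (m : ℤ) : 0 ≤ P Q m ∧ P Q m ≤ 1 := by
  unfold P
  have h1 := hκ.le (2 * m)
  have h2 := norm_nonneg (Q (2 * m))
  exact ⟨by positivity, by nlinarith⟩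

theorem t_NT : S_NT := by
  intro h U κ Q hh hh0 hU uU pU hκ φ hφ hφ0 p J ε hε
  have hB : IsOpen (Set.univ : Set ℂ) := isOpen_univ
  have hc : ∀ n a, ContinuousOn (U n a) Set.univ := fun n a => (hU.smooth n a).continuousOn
  have hcR : ∀ n a b, ContinuousOn (fun z => RR U U a b n z) Set.univ := by
    intro n a b
    unfold RR
    exact ((hc _ _).mul (hc _ _)).sub ((hc _ _).mul (hc _ _))
  set S : ℝ := ∑ i ∈ Finset.range J, ∑ j ∈ Finset.range J,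
    (Gt Q p (i + 1) (j + 1) - Gt Q p (i + 1) j - Gt Q p i (j + 1) + Gt Q p i j) with hS
  have hlim : Tendsto (fun n => ∑ i ∈ Finset.range J, ∑ j ∈ Finset.range J,
      ∫ z, (φ z : ℂ) * (RR U U (2 * (i : ℤ) + p) (-2 * (i : ℤ) - 2 - p) n z *
        RR U U (2 * (j : ℤ) + p) (-2 * (j : ℤ) - 2 - p) n z)) atTop
      (𝓝 (∑ i ∈ Finset.range J, ∑ j ∈ Finset.range J,
        ((Gt Q p (i + 1) (j + 1) - Gt Q p (i + 1) j - Gt Q p i (j + 1) + Gt Q p i j : ℝ) : ℂ) *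
          (∫ z, φ z : ℝ))) := by
    refine tendsto_finsetSum _ fun i _ => tendsto_finsetSum _ fun j _ => ?_
    rw [← LL_val hκ p i j]
    exact RR_lim hB (fun n => (hh n).ne') hU hU uU uU pU pU pU hφ _ _ _ _
  have hSl : (∑ i ∈ Finset.range J, ∑ j ∈ Finset.range J,
        ((Gt Q p (i + 1) (j + 1) - Gt Q p (i + 1) j - Gt Q p i (j + 1) + Gt Q p i j : ℝ) : ℂ) *
          (∫ z, φ z : ℝ)) = ((S * ∫ z, φ z : ℝ) : ℂ) := by
    rw [hS, Finset.sum_mul]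
    push_cast
    refine Finset.sum_congr rfl fun i _ => ?_
    rw [Finset.sum_mul]
  rw [hSl] at hlim
  have hid : ∀ n, (∑ i ∈ Finset.range J, ∑ j ∈ Finset.range J,
      ∫ z, (φ z : ℂ) * (RR U U (2 * (i : ℤ) + p) (-2 * (i : ℤ) - 2 - p) n z *
        RR U U (2 * (j : ℤ) + p) (-2 * (j : ℤ) - 2 - p) n z)) =
      ((∫ z, φ z * (‖U n (2 * (J : ℤ) + p) z‖ ^ 2 - ‖U n p z‖ ^ 2) ^ 2 : ℝ) : ℂ) := by
    intro n
    rw [← integral_complex_ofReal]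
    have hi : ∀ i j : ℕ, Integrable (fun z => (φ z : ℂ) *
        (RR U U (2 * (i : ℤ) + p) (-2 * (i : ℤ) - 2 - p) n z *
        RR U U (2 * (j : ℤ) + p) (-2 * (j : ℤ) - 2 - p) n z)) := fun i j =>
      int_mul hB hφ ((hcR n _ _).mul (hcR n _ _))
    have e1 : ∀ i ∈ Finset.range J, (∑ j ∈ Finset.range J,
        ∫ z, (φ z : ℂ) * (RR U U (2 * (i : ℤ) + p) (-2 * (i : ℤ) - 2 - p) n z *
        RR U U (2 * (j : ℤ) + p) (-2 * (j : ℤ) - 2 - p) n z)) =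
        ∫ z, ∑ j ∈ Finset.range J, (φ z : ℂ) *
        (RR U U (2 * (i : ℤ) + p) (-2 * (i : ℤ) - 2 - p) n z *
        RR U U (2 * (j : ℤ) + p) (-2 * (j : ℤ) - 2 - p) n z) := by
      intro i _
      rw [integral_finsetSum _ fun j _ => hi i j]
    rw [Finset.sum_congr rfl e1, ← integral_finsetSum _ fun i _ =>
      integrable_finsetSum _ fun j _ => hi i j]
    refine integral_congr_ae (Eventually.of_forall fun z => ?_)
    simp only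
    rw [Complex.ofReal_mul, Complex.ofReal_pow, D_val hU, mul_pow, sq ((-1 : ℂ) ^ p.natAbs),
      sg_mul p p ⟨p, rfl⟩, one_mul, sq, Finset.sum_mul_sum, Finset.mul_sum]
    refine Finset.sum_congr rfl fun i _ => ?_
    rw [Finset.mul_sum]
  simp only [hid] at hlim
  have hlim2 : Tendsto (fun n => ∫ z, φ z * (‖U n (2 * (J : ℤ) + p) z‖ ^ 2 - ‖U n p z‖ ^ 2) ^ 2)
      atTop (𝓝 (S * ∫ z, φ z)) := by
    have h1 := (Complex.continuous_re.tendsto _).comp hlim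
    simpa only [Function.comp_def, Complex.ofReal_re] using h1
  have hφi : 0 ≤ ∫ z, φ z := integral_nonneg hφ0
  have hS4 : S ≤ 4 := by
    rw [hS, tele]
    unfold Gt
    have h1 := P_bd hκ
    have a1 := (h1 ((J : ℤ) - (J : ℤ))).2
    have a2 := (h1 ((J : ℤ) + (J : ℤ) + p)).2
    have a3 := (h1 ((J : ℤ) - ((0 : ℕ) : ℤ))).1
    have a4 := (h1 ((J : ℤ) + ((0 : ℕ) : ℤ) + p)).1
    have a5 := (h1 (((0 : ℕ) : ℤ) - (J : ℤ))).1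
    have a6 := (h1 (((0 : ℕ) : ℤ) + (J : ℤ) + p)).1
    have a7 := (h1 (((0 : ℕ) : ℤ) - ((0 : ℕ) : ℤ))).2
    have a8 := (h1 (((0 : ℕ) : ℤ) + ((0 : ℕ) : ℤ) + p)).2
    linarith
  have hlt : S * ∫ z, φ z < 4 * (∫ z, φ z) + ε := by
    have := mul_le_mul_of_nonneg_right hS4 hφi
    linarith
  filter_upwards [(tendsto_order.1 hlim2).2 _ hlt] with n hn
  exact hn.le

end Pool.Agent.U688.SG
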